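import Pool.Agent.Y745.LD.DefsB
import Pool.Agent.Y228.SW.EF

set_option autoImplicit false
set_option linter.all false

/-! LD-EFU: the explicit formula for the local sums, uniformly in the window. -/

namespace Pool.Agent.Y210.LD

open Filter Topology MeasureTheory Complex H370
open Pool.Agent.Y745.SW Pool.Agent.Y745.LD Pool.Agent.Y228.SW
open scoped ComplexConjugate

noncomputable section

theorem t_EFU : P_EFU := by
  intro ε hε hε2
  have hD0 := D0_nonneg
  refine ⟨2 + 2 * D0 + 1, by positivity, ?_⟩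
  intro c C0
  filter_upwards [eventually_ge_atTop (Real.exp (32 / ε ^ 2)), eventually_ge_atTop 1] with T hT hT1
  intro U1 U2 hE B K a hB _ hBK ha1 haL t u ht1 ht2 hu0 hu1
  have hK : 0 ≤ K := (abs_nonneg _).trans (hBK 0)
  have hT0 : 0 < T := by linarith
  have hL : 32 / ε ^ 2 ≤ Real.log T := by
    rw [Real.le_log_iff_exp_le hT0]
    exact hT
  set L := Real.log T with hLd
  have hL0 : 0 < L := lt_of_lt_of_le (by positivity) hL
  have hU1 : 1 ≤ U1 := by linarith [hE.h1]
  have ha0 : 0 < a := by linarith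
  have hW : u + a ≤ (1 - 3 * ε / 4) * L := by nlinarith
  have hW2 : a ≤ (1 - 3 * ε / 4) * L := by nlinarith
  set X := XT ε T with hXd
  -- the three integrals
  have hZ := St_eq (U2 := U2) hU1 hB a u t
  obtain ⟨hQ1, hQ2⟩ := QQf_int c hB a u t X
  have hZi : IntervalIntegrable (fun ξ : ℝ => (B ξ : ℂ) * cexp (-(I * ξ * a * t)) *
      AA riemannZeta U1 U2 (u + ξ * a) t) volume (-1) 1 := by
    apply Continuous.intervalIntegrable
    have h1 : Continuous (fun ξ : ℝ => AA riemannZeta U1 U2 (u + ξ * a) t) :=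
      (AA_cont (U2 := U2) hU1 t).comp (by fun_prop)
    exact Continuous.mul (by fun_prop) h1
  have hMi : IntervalIntegrable (fun ξ : ℝ => cexp (I * u * t) *
      ((L / Real.sqrt (2 * Real.pi) * (B ξ * Real.exp (-(u + ξ * a) ^ 2 / 2)) : ℝ) : ℂ)) volume (-1) 1 := by
    apply Continuous.intervalIntegrable
    fun_prop
  have hM : ∫ ξ in (-1:ℝ)..1, cexp (I * u * t) *
      ((L / Real.sqrt (2 * Real.pi) * (B ξ * Real.exp (-(u + ξ * a) ^ 2 / 2)) : ℝ) : ℂ) =
      cexp (I * u * t) * (Mu B a L u : ℝ) := by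
    rw [intervalIntegral.integral_const_mul, intervalIntegral.integral_ofReal,
      intervalIntegral.integral_const_mul]
    rfl
  have hQi : IntervalIntegrable (fun ξ : ℝ => cexp (I * u * t) * QQf c B a u t X ξ) volume (-1) 1 :=
    hQ1.const_mul _
  have key : St B a U1 U2 u t - cexp (I * u * t) * ((Mu B a L u : ℝ) - DPp c B a u X t -
      DPm c B a u X t) = ∫ ξ in (-1:ℝ)..1, ((B ξ : ℂ) * cexp (-(I * ξ * a * t)) *
      AA riemannZeta U1 U2 (u + ξ * a) t - (cexp (I * u * t) *
        ((L / Real.sqrt (2 * Real.pi) * (B ξ * Real.exp (-(u + ξ * a) ^ 2 / 2)) : ℝ) : ℂ) -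
        cexp (I * u * t) * QQf c B a u t X ξ)) := by
    rw [intervalIntegral.integral_sub hZi (hMi.sub hQi), intervalIntegral.integral_sub hMi hQi, ← hZ,
      hM, intervalIntegral.integral_const_mul, hQ2]
    ring
  rw [key]
  obtain ⟨hei, hev⟩ := int_exp_abs (u := u) ha0
  have hbd : ∀ ξ ∈ Set.Ioc (-1:ℝ) 1, ‖((B ξ : ℂ) * cexp (-(I * ξ * a * t)) *
      AA riemannZeta U1 U2 (u + ξ * a) t - (cexp (I * u * t) *
        ((L / Real.sqrt (2 * Real.pi) * (B ξ * Real.exp (-(u + ξ * a) ^ 2 / 2)) : ℝ) : ℂ) -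
        cexp (I * u * t) * QQf c B a u t X ξ))‖ ≤
      K * (|C0| * Real.exp (-|u + ξ * a|) + D0 * Real.exp (-L)) := by
    intro ξ hξ
    have hnB : ‖(B ξ : ℂ) * cexp (-(I * ξ * a * t))‖ ≤ K := by
      rw [norm_mul, Complex.norm_real, Complex.norm_exp]
      have e : (-(I * ξ * a * t) : ℂ).re = 0 := by
        rw [show (-(I * ξ * a * t) : ℂ) = ((-(ξ * a * t) : ℝ) : ℂ) * I by push_cast; ring,
          Complex.re_ofReal_mul, I_re, mul_zero]
      rw [e, Real.exp_zero, mul_one]
      exact hBK ξ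
    have hξa : |ξ * a| ≤ a := by
      rw [abs_mul, abs_of_pos ha0]
      have : |ξ| ≤ 1 := abs_le.2 ⟨hξ.1.le, hξ.2⟩
      nlinarith
    have hξa' := abs_le.1 hξa
    by_cases h : 0 ≤ u + ξ * a
    · rw [point_pos c B a u t L X ξ h, norm_mul, abs_of_nonneg h]
      exact mul_le_mul hnB (Er_bound hE hε hε2 hT0 hL ht1 ht2 h (by linarith)) (norm_nonneg _) hK
    · rw [point_neg hU1 c B a u t L X ξ h, norm_mul, abs_of_neg (not_le.1 h), RCLike.norm_conj]
      exact mul_le_mul hnB (Er_bound hE hε hε2 hT0 hL ht1 ht2 (by linarith [not_le.1 h])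
        (by linarith)) (norm_nonneg _) hK
  have hgi : IntervalIntegrable (fun ξ : ℝ => K * (|C0| * Real.exp (-|u + ξ * a|) +
      D0 * Real.exp (-L))) volume (-1) 1 :=
    ((hei.const_mul _).add intervalIntegrable_const).const_mul _
  refine (intervalIntegral.norm_integral_le_of_norm_le (by norm_num)
    (Eventually.of_forall hbd) hgi).trans ?_
  rw [intervalIntegral.integral_const_mul, intervalIntegral.integral_add (hei.const_mul _)
    intervalIntegrable_const, intervalIntegral.integral_const_mul, intervalIntegral.integral_const]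
  have hexp : Real.exp (-L) ≤ 1 / L := by
    rw [Real.exp_neg, one_div]
    apply inv_anti₀ hL0
    linarith [Real.add_one_le_exp L]
  have hLa : 1 / L ≤ 1 / a := by
    apply one_div_le_one_div_of_le ha0
    nlinarith
  calc K * ((|C0| * ∫ ξ in (-1:ℝ)..1, Real.exp (-|u + ξ * a|)) + (1 - -1 : ℝ) • (D0 * Real.exp (-L)))
      ≤ K * (|C0| * (2 / a) + 2 * (D0 * (1 / a))) := by
        refine mul_le_mul_of_nonneg_left (add_le_add (mul_le_mul_of_nonneg_left hev (abs_nonneg _))
          ?_) hK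
        rw [smul_eq_mul]
        have : D0 * Real.exp (-L) ≤ D0 * (1 / a) := mul_le_mul_of_nonneg_left (hexp.trans hLa) hD0
        linarith
    _ = (2 * |C0| + 2 * D0) * K / a := by
        field_simp
    _ ≤ (2 + 2 * D0 + 1) * (1 + |C0|) * K / a := by
        refine div_le_div_of_nonneg_right (mul_le_mul_of_nonneg_right ?_ hK) ha0.le
        have h1 : 0 ≤ |C0| := abs_nonneg _
        nlinarith [mul_nonneg hD0 h1]

end

end Pool.Agent.Y210.LD
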